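import Pool.Agent.Q227.TF.Red

/-!
# 2-factors with a directed cycle: from a 2-factor to an assignment
-/

set_option autoImplicit false

namespace Pool.Agent.Q227.TF

open Pool.Agent.NPC

theorem bool_aux : ∀ b x : Bool, (!x) ≠ b → b = x := by decide

theorem sat_of {φ : F3} (hne : φ ≠ []) (hb : Bounded3 φ) (h : HasTwoFactor (Ar φ)) : SAT3 φ := by
  obtain ⟨F, h1, h2, u, C, hC, hd⟩ := h
  obtain ⟨hu, hsucc, hnb⟩ := cycle_facts (A := Ar φ) h2 hC hd
  have hm : 0 < φ.length := List.length_pos_of_ne_nil hne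
  -- the vertices of the directed cycle
  let S : Vx → Prop := fun v => ∃ h : v ∈ vL φ, (⟨v, h⟩ : {v : Vx // v ∈ vL φ}) ∈ C.support
  have hS : ∀ v, S v → ∃ w, S w ∧ arcB φ v w = true := by
    rintro v ⟨hv, hv'⟩
    obtain ⟨w, hw, ha⟩ := hsucc _ hv'
    exact ⟨w.1, ⟨w.2, hw⟩, ha⟩
  have hSL : ∀ v, S v → v ∈ vL φ := fun v h => h.1
  have hS6 : ∀ i b j, ¬ S (6, i, b, j) := by
    intro i b j h
    obtain ⟨⟨k', i', b', j'⟩, hw, ha⟩ := hS _ h
    rw [arcB_iff] at ha
    omega
  have hS5 : ∀ i b j, ¬ S (5, i, b, j) := by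
    intro i b j h
    obtain ⟨⟨k', i', b', j'⟩, hw, ha⟩ := hS _ h
    rw [arcB_iff] at ha
    have hk : k' = 6 := by omega
    subst hk
    exact hS6 _ _ _ hw
  have hS4 : ∀ i b j, ¬ S (4, i, b, j) := by
    intro i b j h
    obtain ⟨⟨k', i', b', j'⟩, hw, ha⟩ := hS _ h
    rw [arcB_iff] at ha
    omega
  have hS3 : ∀ i b j, ¬ S (3, i, b, j) := by
    intro i b j h
    obtain ⟨⟨k', i', b', j'⟩, hw, ha⟩ := hS _ h
    rw [arcB_iff] at ha
    have hk : k' = 4 := by omega
    subst hk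
    exact hS4 _ _ _ hw
  have hS2 : ∀ i b j, ¬ S (2, i, b, j) := by
    intro i b j h
    obtain ⟨⟨k', i', b', j'⟩, hw, ha⟩ := hS _ h
    rw [arcB_iff] at ha
    have hk : k' = 3 ∨ k' = 4 := by omega
    rcases hk with rfl | rfl
    · exact hS3 _ _ _ hw
    · exact hS4 _ _ _ hw
  -- a step along a branch
  have hS1 : ∀ i b j, S (1, i, b, j) → (j + 1 < φ.length ∧ S (1, i, b, j + 1)) ∨
      (j + 1 = φ.length ∧ S (0, i + 1, false, 0)) := by
    intro i b j h
    have hl := mem_vL.1 (hSL _ h)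
    obtain ⟨⟨k', i', b', j'⟩, hw, ha⟩ := hS _ h
    have hl' := mem_vL.1 (hSL _ hw)
    rw [arcB_iff] at ha
    rcases ha with ha | ha | ha | ha | ha | ha | ha
    · omega
    · obtain ⟨_, rfl, rfl, rfl, rfl⟩ := ha
      left
      exact ⟨by omega, hw⟩
    · obtain ⟨_, rfl, rfl, h4⟩ := ha
      right
      refine ⟨h4, ?_⟩
      rcases hl' with h5 | h5 | h5
      · obtain ⟨_, _, rfl, rfl⟩ := h5
        exact hw
      · omega
      · omega
    · omega
    · obtain ⟨_, h3, h4, _⟩ := ha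
      obtain rfl | rfl | rfl : k' = 2 ∨ k' = 3 ∨ k' = 4 := by omega
      · exact absurd hw (hS2 _ _ _)
      · exact absurd hw (hS3 _ _ _)
      · exact absurd hw (hS4 _ _ _)
    · obtain ⟨_, h3, _⟩ := ha
      obtain rfl | rfl : k' = 5 ∨ k' = 6 := by omega
      · exact absurd hw (hS5 _ _ _)
      · exact absurd hw (hS6 _ _ _)
    · omega
  have hrun : ∀ i b j, S (1, i, b, j) → (∀ j', j ≤ j' → j' < φ.length → S (1, i, b, j')) ∧
      S (0, i + 1, false, 0) := by
    intro i b j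
    induction hk : φ.length - j generalizing j with
    | zero =>
      intro h
      have hl := mem_vL.1 (hSL _ h)
      omega
    | succ k ih =>
      intro h
      rcases hS1 i b j h with ⟨h3, h4⟩ | ⟨h3, h4⟩
      · obtain ⟨h5, h6⟩ := ih (j + 1) (by omega) h4
        refine ⟨fun j' hj hj' => ?_, h6⟩
        rcases Nat.eq_or_lt_of_le hj with rfl | hj
        · exact h
        · exact h5 j' hj hj'
      · refine ⟨fun j' hj hj' => ?_, h4⟩
        obtain rfl : j' = j := by omega
        exact h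
  have hS0 : ∀ i, S (0, i, false, 0) → (i < 3 * φ.length ∧ ∃ b, S (1, i, b, 0)) ∨
      (i = 3 * φ.length ∧ S (0, 0, false, 0)) := by
    intro i h
    have hl := mem_vL.1 (hSL _ h)
    obtain ⟨⟨k', i', b', j'⟩, hw, ha⟩ := hS _ h
    have hl' := mem_vL.1 (hSL _ hw)
    rw [arcB_iff] at ha
    rcases ha with ha | ha | ha | ha | ha | ha | ha
    · obtain ⟨_, rfl, rfl, rfl⟩ := ha
      left
      exact ⟨by omega, b', hw⟩
    · omega
    · omega
    · obtain ⟨_, rfl, h4, rfl⟩ := ha
      right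
      refine ⟨h4, ?_⟩
      rcases hl' with h5 | h5 | h5
      · obtain ⟨_, _, rfl, rfl⟩ := h5
        exact hw
      · omega
      · omega
    · omega
    · omega
    · omega
  have hnext : ∀ i, i < 3 * φ.length → S (0, i, false, 0) → ∃ b,
      (∀ j < φ.length, S (1, i, b, j)) ∧ S (0, i + 1, false, 0) := by
    intro i hi h
    rcases hS0 i h with ⟨_, b, h3⟩ | ⟨h3, _⟩
    · obtain ⟨h4, h5⟩ := hrun i b 0 h3
      exact ⟨b, fun j hj => h4 j (by omega) hj, h5⟩
    · omega
  -- some spine vertex is on the cycle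
  have hsome : ∃ i, S (0, i, false, 0) := by
    have hu' : S u.1 := ⟨u.2, hu⟩
    obtain ⟨⟨k, i, b, j⟩, hmem⟩ := u
    simp only at hu'
    rcases mem_vL.1 hmem with h3 | h3 | h3
    · obtain ⟨rfl, _, rfl, rfl⟩ := h3
      exact ⟨i, hu'⟩
    · obtain rfl | rfl | rfl | rfl : k = 1 ∨ k = 2 ∨ k = 3 ∨ k = 4 := by omega
      · exact ⟨i + 1, (hrun i b j hu').2⟩
      · exact absurd hu' (hS2 _ _ _)
      · exact absurd hu' (hS3 _ _ _)
      · exact absurd hu' (hS4 _ _ _)
    · obtain ⟨rfl | rfl, _⟩ := h3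
      · exact absurd hu' (hS5 _ _ _)
      · exact absurd hu' (hS6 _ _ _)
  have hlast : S (0, 3 * φ.length, false, 0) := by
    obtain ⟨i, hi⟩ := hsome
    have hl := mem_vL.1 (hSL _ hi)
    have hil : i ≤ 3 * φ.length := by omega
    clear hl
    induction hk : 3 * φ.length - i generalizing i with
    | zero =>
      obtain rfl : i = 3 * φ.length := by omega
      exact hi
    | succ k ih =>
      obtain ⟨_, _, h3⟩ := hnext i (by omega) hi
      exact ih (i + 1) h3 (by omega) (by omega)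
  have hfirst : S (0, 0, false, 0) := by
    rcases hS0 _ hlast with h3 | h3
    · omega
    · exact h3.2
  have hall : ∀ i, i ≤ 3 * φ.length → S (0, i, false, 0) := by
    intro i
    induction i with
    | zero => exact fun _ => hfirst
    | succ i ih =>
      intro hi
      obtain ⟨_, _, h3⟩ := hnext i (by omega) (ih (by omega))
      exact h3
  have hch : ∀ i, ∃ b, i < 3 * φ.length → ∀ j < φ.length, S (1, i, b, j) := by
    intro i
    by_cases hi : i < 3 * φ.length
    · obtain ⟨b, h3, _⟩ := hnext i hi (hall i hi.le)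
      exact ⟨b, fun _ => h3⟩
    · exact ⟨false, fun h => absurd h hi⟩
  choose β hβ using hch
  refine ⟨fun i => !β i, ?_⟩
  intro c hc
  obtain ⟨j, hj, hjc⟩ := List.getElem_of_mem hc
  have hbc := hb c hc
  by_contra hcon
  push Not at hcon
  -- all three literals are on the cycle
  have hlit : ∀ i b, litIn φ i b j = true → S (1, i, b, j) := by
    intro i b hl
    unfold litIn at hl
    rw [List.getElem?_eq_getElem hj, hjc] at hl
    simp only [Bool.or_eq_true, decide_eq_true_eq] at hl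
    have key : ∀ l : Lit ℕ, l = (b, i) → l.2 < 3 * φ.length → (!β l.2) ≠ l.1 →
        S (1, i, b, j) := by
      rintro l rfl h3 h4
      have h5 : b = β i := bool_aux _ _ h4
      subst h5
      exact hβ i h3 j hj
    rcases hl with hl | hl | hl
    · exact key _ hl hbc.1 hcon.1
    · exact key _ hl hbc.2.1 hcon.2.1
    · exact key _ hl hbc.2.2 hcon.2.2
  have h5L : ((5, j, false, 0) : Vx) ∈ vL φ := mem_vL.2 (Or.inr (Or.inr ⟨Or.inl rfl, hj, rfl, rfl⟩))
  have h6L : ((6, j, false, 0) : Vx) ∈ vL φ := mem_vL.2 (Or.inr (Or.inr ⟨Or.inr rfl, hj, rfl, rfl⟩))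
  -- a neighbour of the clause vertex other than its partner
  obtain ⟨⟨⟨k', i', b', j'⟩, hwL⟩, hw, hw6⟩ : ∃ w ∈ F.neighborSet ⟨(5, j, false, 0), h5L⟩,
      w ≠ ⟨(6, j, false, 0), h6L⟩ := by
    have h3 := h2 ⟨(5, j, false, 0), h5L⟩
    obtain ⟨x, y, hxy, h4⟩ := Set.ncard_eq_two.1 h3
    by_cases hx : x = ⟨(6, j, false, 0), h6L⟩
    · refine ⟨y, by rw [h4]; simp, ?_⟩
      rintro rfl
      exact hxy hx
    · exact ⟨x, by rw [h4]; simp, hx⟩
  have hS' : S (k', i', b', j') := by
    have hl' := mem_vL.1 hwL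
    rcases h1 _ _ hw with ha | ha
    · have ha' : arcB φ (5, j, false, 0) (k', i', b', j') = true := ha
      rw [arcB_iff] at ha'
      exfalso
      apply hw6
      apply Subtype.ext
      have hk : k' = 6 ∧ i' = j := by omega
      obtain ⟨rfl, rfl⟩ := hk
      rcases hl' with h5 | h5 | h5
      · omega
      · omega
      · obtain ⟨_, _, rfl, rfl⟩ := h5
        rfl
    · have ha' : arcB φ (k', i', b', j') (5, j, false, 0) = true := ha
      rw [arcB_iff] at ha'
      rcases ha' with ha | ha | ha | ha | ha | ha | ha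
      · omega
      · omega
      · omega
      · omega
      · omega
      · obtain ⟨rfl, _, rfl, h5⟩ := ha
        exact hlit _ _ h5
      · omega
  obtain ⟨hm', hsup⟩ := hS'
  have h7 : (⟨(5, j, false, 0), h5L⟩ : {v : Vx // v ∈ vL φ}) ∈ C.support :=
    hnb _ hsup _ (F.symm.symm _ _ hw)
  exact hS5 _ _ _ ⟨h5L, h7⟩

end Pool.Agent.Q227.TF
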