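import Pool.Agent.Q227.TF.Compl
import Pool.Agent.Q227.TF.Sound

/-!
# 2-factors with a directed cycle: the reduction is computed in polynomial time
-/

set_option autoImplicit false

namespace Pool.Agent.Q227.TF

open Pool.Agent.NPC

theorem product_poly {α β γ : Type} [TEnc α] [TEnc β] [TEnc γ] {l : α → List β} {l' : α → List γ}
    (hl : NPC.Poly l) (hl' : NPC.Poly l') : NPC.Poly (fun a => l a ×ˢ l' a) := by
  change NPC.Poly (fun a => (l a).flatMap fun b => (l' a).map (Prod.mk b))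
  refine NPC.Poly.flatMap (F := fun a b => (l' a).map (Prod.mk b)) hl ?_
  exact NPC.Poly.map (F := fun (p : α × β) c => (p.2, c)) (hl'.comp (NPC.Poly.fst NPC.Poly.id))
    (NPC.Poly.pair (NPC.Poly.snd (NPC.Poly.fst NPC.Poly.id)) (NPC.Poly.snd NPC.Poly.id))

theorem litIn_poly {α : Type} [TEnc α] {φ : α → F3} {i j : α → ℕ} {b : α → Bool}
    (hφ : NPC.Poly φ) (hi : NPC.Poly i) (hb : NPC.Poly b) (hj : NPC.Poly j) :
    NPC.Poly (fun a => litIn (φ a) (i a) (b a) (j a)) := by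
  have hp : NPC.Poly (fun p : α × (Lit ℕ × Lit ℕ × Lit ℕ) => (b p.1, i p.1)) :=
    NPC.Poly.pair (hb.comp (NPC.Poly.fst NPC.Poly.id)) (hi.comp (NPC.Poly.fst NPC.Poly.id))
  have hc : NPC.Poly (fun p : α × (Lit ℕ × Lit ℕ × Lit ℕ) => p.2) := NPC.Poly.snd NPC.Poly.id
  refine (NPC.Poly.optCases (o := fun a => (φ a)[j a]?) (g := fun _ => false)
    (h := fun a c => decide (c.1 = (b a, i a)) || (decide (c.2.1 = (b a, i a)) ||
      decide (c.2.2 = (b a, i a)))) (NPC.Poly.getElem? hφ hj) (NPC.Poly.const _) ?_).congr ?_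
  · exact NPC.Poly.or (NPC.Poly.decide_eq (NPC.Poly.fst hc) hp)
      (NPC.Poly.or (NPC.Poly.decide_eq (NPC.Poly.fst (NPC.Poly.snd hc)) hp)
        (NPC.Poly.decide_eq (NPC.Poly.snd (NPC.Poly.snd hc)) hp))
  · intro a
    unfold litIn
    cases (φ a)[j a]? <;> rfl

theorem okB_poly : NPC.Poly (fun p : F3 × Vx => okB p.1 p.2) := by
  have hφ : NPC.Poly (fun p : F3 × Vx => p.1.length) := NPC.Poly.length (NPC.Poly.fst NPC.Poly.id)
  have hv : NPC.Poly (fun p : F3 × Vx => p.2) := NPC.Poly.snd NPC.Poly.id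
  have hk := NPC.Poly.fst hv
  have hi := NPC.Poly.fst (NPC.Poly.snd hv)
  have hb := NPC.Poly.fst (NPC.Poly.snd (NPC.Poly.snd hv))
  have hj := NPC.Poly.snd (NPC.Poly.snd (NPC.Poly.snd hv))
  unfold okB
  exact NPC.Poly.or (NPC.Poly.and (NPC.Poly.decide_eq hk (NPC.Poly.const 0))
      (NPC.Poly.and (NPC.Poly.decide_eq hb (NPC.Poly.const false))
        (NPC.Poly.decide_eq hj (NPC.Poly.const 0))))
    (NPC.Poly.or (NPC.Poly.and (NPC.Poly.decide_le (NPC.Poly.const 1) hk)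
      (NPC.Poly.and (NPC.Poly.decide_le hk (NPC.Poly.const 4))
        (NPC.Poly.and (NPC.Poly.decide_lt hi (NPC.Poly.mul (NPC.Poly.const 3) hφ))
          (NPC.Poly.decide_lt hj hφ))))
      (NPC.Poly.and (NPC.Poly.decide_le (NPC.Poly.const 5) hk)
        (NPC.Poly.and (NPC.Poly.decide_lt hi hφ)
          (NPC.Poly.and (NPC.Poly.decide_eq hb (NPC.Poly.const false))
            (NPC.Poly.decide_eq hj (NPC.Poly.const 0))))))

theorem arcB_poly : NPC.Poly (fun p : F3 × Vx × Vx => arcB p.1 p.2.1 p.2.2) := by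
  have hφ : NPC.Poly (fun p : F3 × Vx × Vx => p.1) := NPC.Poly.fst NPC.Poly.id
  have hu : NPC.Poly (fun p : F3 × Vx × Vx => p.2.1) := NPC.Poly.fst (NPC.Poly.snd NPC.Poly.id)
  have hv : NPC.Poly (fun p : F3 × Vx × Vx => p.2.2) := NPC.Poly.snd (NPC.Poly.snd NPC.Poly.id)
  have hm := NPC.Poly.length hφ
  have hk := NPC.Poly.fst hu
  have hi := NPC.Poly.fst (NPC.Poly.snd hu)
  have hb := NPC.Poly.fst (NPC.Poly.snd (NPC.Poly.snd hu))
  have hj := NPC.Poly.snd (NPC.Poly.snd (NPC.Poly.snd hu))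
  have hk' := NPC.Poly.fst hv
  have hi' := NPC.Poly.fst (NPC.Poly.snd hv)
  have hb' := NPC.Poly.fst (NPC.Poly.snd (NPC.Poly.snd hv))
  have hj' := NPC.Poly.snd (NPC.Poly.snd (NPC.Poly.snd hv))
  unfold arcB
  refine NPC.Poly.or ?_ (NPC.Poly.or ?_ (NPC.Poly.or ?_ (NPC.Poly.or ?_ (NPC.Poly.or ?_
    (NPC.Poly.or ?_ ?_)))))
  · exact NPC.Poly.and (NPC.Poly.decide_eq hk (NPC.Poly.const 0))
      (NPC.Poly.and (NPC.Poly.decide_eq hk' (NPC.Poly.const 1))
        (NPC.Poly.and (NPC.Poly.decide_eq hi' hi) (NPC.Poly.decide_eq hj' (NPC.Poly.const 0))))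
  · exact NPC.Poly.and (NPC.Poly.decide_eq hk (NPC.Poly.const 1))
      (NPC.Poly.and (NPC.Poly.decide_eq hk' (NPC.Poly.const 1))
        (NPC.Poly.and (NPC.Poly.decide_eq hi' hi) (NPC.Poly.and (NPC.Poly.decide_eq hb' hb)
          (NPC.Poly.decide_eq hj' (NPC.Poly.succ hj)))))
  · exact NPC.Poly.and (NPC.Poly.decide_eq hk (NPC.Poly.const 1))
      (NPC.Poly.and (NPC.Poly.decide_eq hk' (NPC.Poly.const 0))
        (NPC.Poly.and (NPC.Poly.decide_eq hi' (NPC.Poly.succ hi))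
          (NPC.Poly.decide_eq (NPC.Poly.succ hj) hm)))
  · exact NPC.Poly.and (NPC.Poly.decide_eq hk (NPC.Poly.const 0))
      (NPC.Poly.and (NPC.Poly.decide_eq hk' (NPC.Poly.const 0))
        (NPC.Poly.and (NPC.Poly.decide_eq hi (NPC.Poly.mul (NPC.Poly.const 3) hm))
          (NPC.Poly.decide_eq hi' (NPC.Poly.const 0))))
  · exact NPC.Poly.and (NPC.Poly.decide_le (NPC.Poly.const 1) hk)
      (NPC.Poly.and (NPC.Poly.decide_lt hk hk')
        (NPC.Poly.and (NPC.Poly.decide_le hk' (NPC.Poly.const 4))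
          (NPC.Poly.and (NPC.Poly.decide_eq hi' hi) (NPC.Poly.and (NPC.Poly.decide_eq hb' hb)
            (NPC.Poly.decide_eq hj' hj)))))
  · exact NPC.Poly.and (NPC.Poly.decide_eq hk (NPC.Poly.const 1))
      (NPC.Poly.and (NPC.Poly.decide_le (NPC.Poly.const 5) hk')
        (NPC.Poly.and (NPC.Poly.decide_eq hi' hj) (litIn_poly hφ hi hb hj)))
  · exact NPC.Poly.and (NPC.Poly.decide_eq hk (NPC.Poly.const 5))
      (NPC.Poly.and (NPC.Poly.decide_eq hk' (NPC.Poly.const 6)) (NPC.Poly.decide_eq hi' hi))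

theorem vL_poly : NPC.Poly vL := by
  have hm : UPoly (fun φ : F3 => φ.length) := UPoly.length NPC.Poly.id
  refine NPC.Poly.filter (p := fun (φ : F3) (v : Vx) => okB φ v) ?_ okB_poly
  exact product_poly (NPC.Poly.const _) (product_poly
    (UPoly.add (UPoly.mul (UPoly.const 3) hm) (UPoly.const 1)).range
    (product_poly (NPC.Poly.const _) (UPoly.add hm (UPoly.const 1)).range))

theorem red_poly : NPC.Poly red := mkDG_poly vL_poly arcB_poly

theorem arcB_irrefl (φ : F3) (hne : φ ≠ []) (v : Vx) : arcB φ v v = false := by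
  obtain ⟨k, i, b, j⟩ := v
  have hm : 0 < φ.length := List.length_pos_of_ne_nil hne
  rw [← Bool.not_eq_true, arcB_iff]
  omega

theorem sat_iff {φ : F3} (hb : Bounded3 φ) (hne : φ ≠ []) :
    SAT3 φ ↔ HasTwoFactor (fun u v : Fin (red φ).1 => (u.val, v.val) ∈ (red φ).2) := by
  rw [red_iff]
  constructor
  · rintro ⟨τ, hτ⟩
    have h : ∀ j, ∃ i, j < φ.length → i < 3 * φ.length ∧ litIn φ i (τ i) j = true := by
      intro j
      by_cases hj : j < φ.length
      · have hbc := hb φ[j] (List.getElem_mem hj)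
        have key : ∀ l : Lit ℕ, (l = φ[j].1 ∨ l = φ[j].2.1 ∨ l = φ[j].2.2) → τ l.2 = l.1 →
            litIn φ l.2 (τ l.2) j = true := by
          intro l h1 h2
          unfold litIn
          rw [List.getElem?_eq_getElem hj]
          simp only [Bool.or_eq_true, decide_eq_true_eq]
          rw [h2]
          rcases h1 with h1 | h1 | h1
          · exact Or.inl h1.symm
          · exact Or.inr (Or.inl h1.symm)
          · exact Or.inr (Or.inr h1.symm)
        rcases hτ φ[j] (List.getElem_mem hj) with h1 | h1 | h1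
        · exact ⟨_, fun _ => ⟨hbc.1, key _ (Or.inl rfl) h1⟩⟩
        · exact ⟨_, fun _ => ⟨hbc.2.1, key _ (Or.inr (Or.inl rfl)) h1⟩⟩
        · exact ⟨_, fun _ => ⟨hbc.2.2, key _ (Or.inr (Or.inr rfl)) h1⟩⟩
      · exact ⟨0, fun h => absurd h hj⟩
    choose ch hch using h
    exact hasTwoFactor (τ := τ) (ch := ch) (List.length_pos_of_ne_nil hne) hch
  · exact sat_of hne hb

end Pool.Agent.Q227.TF
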