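import Pool.Agent.NPC.Dec
import Pool.Agent.NPC.Sat2
import Pool.Agent.H673R2.Search

/-!
# Numbered digraphs from lists of structured vertices
-/

set_option autoImplicit false

namespace Pool.Agent.Q227

open Pool.Agent.NPC

/-- The digraph (number of vertices, list of arcs) whose vertices are the positions in the list
`L`, with an arc from the position of `u` to the position of `v` if `arc u v`. -/
def mkDG {V : Type} (L : List V) (arc : V → V → Bool) : ℕ × List (ℕ × ℕ) :=
  (L.length, L.zipIdx.flatMap fun p =>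
    (L.zipIdx.filter fun q => arc p.1 q.1).map fun q => (p.2, q.2))

theorem mem_mkDG {V : Type} {L : List V} {arc : V → V → Bool} {i j : ℕ} :
    (i, j) ∈ (mkDG L arc).2 ↔ ∃ u v, L[i]? = some u ∧ L[j]? = some v ∧ arc u v = true := by
  unfold mkDG
  simp only [List.mem_flatMap, List.mem_map, List.mem_filter, List.mem_zipIdx_iff_getElem?,
    Prod.exists, Prod.mk.injEq]
  constructor
  · rintro ⟨u, i', hu, v, j', ⟨hv, ha⟩, rfl, rfl⟩
    exact ⟨u, v, hu, hv, ha⟩
  · rintro ⟨u, v, hu, hv, ha⟩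
    exact ⟨u, i, hu, v, j, ⟨hv, ha⟩, rfl, rfl⟩

theorem mem_mkDG_fin {V : Type} {L : List V} {arc : V → V → Bool} (i j : Fin L.length) :
    (i.val, j.val) ∈ (mkDG L arc).2 ↔ arc L[i] L[j] = true := by
  rw [mem_mkDG]
  constructor
  · rintro ⟨u, v, hu, hv, ha⟩
    rw [List.getElem?_eq_getElem i.isLt, Option.some.injEq] at hu
    rw [List.getElem?_eq_getElem j.isLt, Option.some.injEq] at hv
    rw [Fin.getElem_fin, Fin.getElem_fin, hu, hv]
    exact ha
  · intro ha
    exact ⟨L[i], L[j], List.getElem?_eq_getElem i.isLt, List.getElem?_eq_getElem j.isLt, ha⟩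

theorem mkDG_lt {V : Type} {L : List V} {arc : V → V → Bool} {a : ℕ × ℕ}
    (h : a ∈ (mkDG L arc).2) : a.1 < (mkDG L arc).1 ∧ a.2 < (mkDG L arc).1 := by
  obtain ⟨u, v, hu, hv, _⟩ := mem_mkDG.1 h
  exact ⟨(List.getElem?_eq_some_iff.1 hu).1, (List.getElem?_eq_some_iff.1 hv).1⟩

theorem mkDG_ne {V : Type} {L : List V} {arc : V → V → Bool}
    (harc : ∀ v ∈ L, arc v v = false) {a : ℕ × ℕ} (h : a ∈ (mkDG L arc).2) : a.1 ≠ a.2 := by
  obtain ⟨u, v, hu, hv, hh⟩ := mem_mkDG.1 h
  intro he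
  rw [he, hv, Option.some.injEq] at hu
  subst hu
  rw [harc _ (List.mem_of_getElem? hv)] at hh
  exact Bool.noConfusion hh

theorem zipIdx_snd_inj {V : Type} {L : List V} {p q : V × ℕ} (hp : p ∈ L.zipIdx)
    (hq : q ∈ L.zipIdx) (h : p.2 = q.2) : p = q := by
  rw [List.mem_zipIdx_iff_getElem?] at hp hq
  rw [h, hq, Option.some.injEq] at hp
  exact Prod.ext hp.symm h

theorem zipIdx_nodup {V : Type} (L : List V) : L.zipIdx.Nodup := by
  have h : (L.zipIdx.map Prod.snd).Nodup := by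
    have : L.zipIdx.map Prod.snd = List.range L.length := by
      rw [List.zipIdx_map_snd, List.range_eq_range']
    rw [this]
    exact List.nodup_range
  exact List.Nodup.of_map _ h

theorem mkDG_nodup {V : Type} (L : List V) (arc : V → V → Bool) : (mkDG L arc).2.Nodup := by
  unfold mkDG
  simp only
  rw [List.nodup_flatMap]
  constructor
  · intro p _
    rw [List.nodup_map_iff_inj_on ((zipIdx_nodup L).filter _)]
    intro q hq q' hq' h
    rw [List.mem_filter] at hq hq'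
    exact zipIdx_snd_inj hq.1 hq'.1 (Prod.mk.inj h).2
  · refine List.Pairwise.imp_of_mem ?_ (zipIdx_nodup L)
    intro p p' hp hp' hne
    rw [Function.onFun, List.disjoint_left]
    intro x hx hx'
    rw [List.mem_map] at hx hx'
    obtain ⟨q, _, rfl⟩ := hx
    obtain ⟨q', _, h⟩ := hx'
    exact hne (zipIdx_snd_inj hp hp' (Prod.mk.inj h).1.symm)

/-- Polynomial-time computability of the numbered digraph. -/
theorem mkDG_poly {α V : Type} [TEnc α] [TEnc V] {L : α → List V} {arc : α → V → V → Bool}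
    (hL : NPC.Poly L) (ha : NPC.Poly (fun p : α × V × V => arc p.1 p.2.1 p.2.2)) :
    NPC.Poly (fun a => mkDG (L a) (arc a)) := by
  unfold mkDG
  refine NPC.Poly.pair (NPC.Poly.length hL) ?_
  refine NPC.Poly.flatMap (F := fun a (p : V × ℕ) =>
    ((L a).zipIdx.filter fun q => arc a p.1 q.1).map fun q => (p.2, q.2)) (NPC.Poly.zipIdx hL) ?_
  refine NPC.Poly.map (F := fun (x : α × (V × ℕ)) (q : V × ℕ) => (x.2.2, q.2)) ?_ ?_
  · refine NPC.Poly.filter (p := fun (x : α × (V × ℕ)) (q : V × ℕ) => arc x.1 x.2.1 q.1)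
      ((NPC.Poly.zipIdx hL).comp (NPC.Poly.fst NPC.Poly.id)) ?_
    exact ha.comp (NPC.Poly.pair (NPC.Poly.fst (NPC.Poly.fst NPC.Poly.id))
      (NPC.Poly.pair (NPC.Poly.fst (NPC.Poly.snd (NPC.Poly.fst NPC.Poly.id))) (NPC.Poly.fst (NPC.Poly.snd NPC.Poly.id))))
  · exact NPC.Poly.pair (NPC.Poly.snd (NPC.Poly.snd (NPC.Poly.fst NPC.Poly.id))) (NPC.Poly.snd (NPC.Poly.snd NPC.Poly.id))

end Pool.Agent.Q227
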