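import Pool.Agent.Q227.TF.Perm
import Pool.Agent.Q227.TF.Mk

/-!
# 2-factors with a directed cycle: the reduction from 3SAT
-/

set_option autoImplicit false

namespace Pool.Agent.Q227.TF

open Pool.Agent.NPC

/-- Formulas with three literals per clause. -/
abbrev F3 : Type := List (Lit ℕ × Lit ℕ × Lit ℕ)

/-- Structured vertices: kind, index of a variable or clause, truth value, index of a clause. -/
abbrev Vx : Type := ℕ × ℕ × Bool × ℕ

/-- The literal of the variable `i` with sign `b` occurs in the clause number `j`. -/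
def litIn (φ : F3) (i : ℕ) (b : Bool) (j : ℕ) : Bool :=
  match φ[j]? with
  | none => false
  | some c => decide (c.1 = (b, i)) || (decide (c.2.1 = (b, i)) || decide (c.2.2 = (b, i)))

/-- The arcs. Kinds: `0` spine, `1` branches, `2`, `3`, `4` triangles, `5`, `6` clauses. -/
def arcB (φ : F3) (u v : Vx) : Bool :=
  (decide (u.1 = 0) && (decide (v.1 = 1) && (decide (v.2.1 = u.2.1) && decide (v.2.2.2 = 0)))) ||
  ((decide (u.1 = 1) && (decide (v.1 = 1) && (decide (v.2.1 = u.2.1) &&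
    (decide (v.2.2.1 = u.2.2.1) && decide (v.2.2.2 = u.2.2.2 + 1))))) ||
  ((decide (u.1 = 1) && (decide (v.1 = 0) && (decide (v.2.1 = u.2.1 + 1) &&
    decide (u.2.2.2 + 1 = φ.length)))) ||
  ((decide (u.1 = 0) && (decide (v.1 = 0) && (decide (u.2.1 = 3 * φ.length) &&
    decide (v.2.1 = 0)))) ||
  ((decide (1 ≤ u.1) && (decide (u.1 < v.1) && (decide (v.1 ≤ 4) && (decide (v.2.1 = u.2.1) &&
    (decide (v.2.2.1 = u.2.2.1) && decide (v.2.2.2 = u.2.2.2)))))) ||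
  ((decide (u.1 = 1) && (decide (5 ≤ v.1) && (decide (v.2.1 = u.2.2.2) &&
    litIn φ u.2.1 u.2.2.1 u.2.2.2))) ||
  (decide (u.1 = 5) && (decide (v.1 = 6) && decide (v.2.1 = u.2.1))))))))

/-- The vertices. -/
def okB (φ : F3) (v : Vx) : Bool :=
  (decide (v.1 = 0) && (decide (v.2.2.1 = false) && decide (v.2.2.2 = 0))) ||
  ((decide (1 ≤ v.1) && (decide (v.1 ≤ 4) && (decide (v.2.1 < 3 * φ.length) &&
    decide (v.2.2.2 < φ.length)))) ||
  (decide (5 ≤ v.1) && (decide (v.2.1 < φ.length) && (decide (v.2.2.1 = false) &&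
    decide (v.2.2.2 = 0)))))

/-- All tuples in a box. -/
def box (φ : F3) : List Vx :=
  (List.range 7) ×ˢ ((List.range (3 * φ.length + 1)) ×ˢ ([false, true] ×ˢ
    (List.range (φ.length + 1))))

/-- The list of the vertices. -/
def vL (φ : F3) : List Vx := (box φ).filter (okB φ)

theorem vL_nodup (φ : F3) : (vL φ).Nodup :=
  ((List.nodup_range).product ((List.nodup_range).product
    (List.Nodup.product (by simp) (List.nodup_range)))).filter _

theorem mem_vL {φ : F3} {k i j : ℕ} {b : Bool} : ((k, i, b, j) : Vx) ∈ vL φ ↔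
    (k = 0 ∧ i ≤ 3 * φ.length ∧ b = false ∧ j = 0) ∨
    ((1 ≤ k ∧ k ≤ 4) ∧ i < 3 * φ.length ∧ j < φ.length) ∨
    ((k = 5 ∨ k = 6) ∧ i < φ.length ∧ b = false ∧ j = 0) := by
  unfold vL box okB
  simp only [List.mem_filter, List.mem_product, List.mem_range, List.mem_cons, List.not_mem_nil,
    or_false, Bool.or_eq_true, Bool.and_eq_true, decide_eq_true_eq]
  constructor
  · rintro ⟨⟨h1, h2, h3, h4⟩, h5 | h5 | h5⟩
    · exact Or.inl ⟨h5.1, by omega, h5.2⟩
    · exact Or.inr (Or.inl ⟨⟨h5.1, h5.2.1⟩, h5.2.2⟩)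
    · exact Or.inr (Or.inr ⟨by omega, h5.2⟩)
  · rintro (h | h | h)
    · exact ⟨⟨by omega, by omega, by cases b <;> simp, by omega⟩, Or.inl ⟨h.1, h.2.2⟩⟩
    · exact ⟨⟨by omega, by omega, by cases b <;> simp, by omega⟩,
        Or.inr (Or.inl ⟨h.1.1, h.1.2, h.2⟩)⟩
    · exact ⟨⟨by omega, by omega, by cases b <;> simp, by omega⟩,
        Or.inr (Or.inr ⟨by omega, h.2⟩)⟩

theorem arcB_iff {φ : F3} {k i j k' i' j' : ℕ} {b b' : Bool} :
    arcB φ (k, i, b, j) (k', i', b', j') = true ↔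
    (k = 0 ∧ k' = 1 ∧ i' = i ∧ j' = 0) ∨
    (k = 1 ∧ k' = 1 ∧ i' = i ∧ b' = b ∧ j' = j + 1) ∨
    (k = 1 ∧ k' = 0 ∧ i' = i + 1 ∧ j + 1 = φ.length) ∨
    (k = 0 ∧ k' = 0 ∧ i = 3 * φ.length ∧ i' = 0) ∨
    (1 ≤ k ∧ k < k' ∧ k' ≤ 4 ∧ i' = i ∧ b' = b ∧ j' = j) ∨
    (k = 1 ∧ 5 ≤ k' ∧ i' = j ∧ litIn φ i b j = true) ∨
    (k = 5 ∧ k' = 6 ∧ i' = i) := by
  unfold arcB
  simp only [Bool.or_eq_true, Bool.and_eq_true, decide_eq_true_eq]

/-- Arcs between vertices. -/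
def Ar (φ : F3) (u v : {v : Vx // v ∈ vL φ}) : Prop := arcB φ u.1 v.1 = true

/-- The instance: number of vertices and list of arcs. -/
def red (φ : F3) : ℕ × List (ℕ × ℕ) := mkDG (vL φ) (arcB φ)

/-- Numbers and vertices. -/
noncomputable def eqv (φ : F3) : Fin (red φ).1 ≃ {v : Vx // v ∈ vL φ} :=
  (vL_nodup φ).getEquiv (vL φ)

theorem eqv_iff (φ : F3) (u v : Fin (red φ).1) : (u.val, v.val) ∈ (red φ).2 ↔
    Ar φ (eqv φ u) (eqv φ v) :=
  mem_mkDG_fin (L := vL φ) (arc := arcB φ) u v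

theorem red_iff (φ : F3) :
    HasTwoFactor (fun u v : Fin (red φ).1 => (u.val, v.val) ∈ (red φ).2) ↔
      HasTwoFactor (Ar φ) := by
  constructor
  · exact HasTwoFactor.transport (eqv φ) (eqv_iff φ)
  · refine HasTwoFactor.transport (eqv φ).symm fun u v => ?_
    rw [eqv_iff, Equiv.apply_symm_apply, Equiv.apply_symm_apply]

end Pool.Agent.Q227.TF
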