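import Pool.Agent.Q227.TF.Red

/-!
# 2-factors with a directed cycle: from an assignment to a 2-factor
-/

set_option autoImplicit false

namespace Pool.Agent.Q227.TF

open Pool.Agent.NPC

/-- the successor function of the 2-factor -/
def sg (φ : F3) (τ : ℕ → Bool) (ch : ℕ → ℕ) : Vx → Vx
  | (0, i, _, _) => if i = 3 * φ.length then (0, 0, false, 0) else (1, i, !τ i, 0)
  | (1, i, b, j) => if b = τ i then (if ch j = i then (5, j, false, 0) else (2, i, b, j)) else
      (if j + 1 = φ.length then (0, i + 1, false, 0) else (1, i, b, j + 1))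
  | (2, i, b, j) => (3, i, b, j)
  | (3, i, b, j) => (4, i, b, j)
  | (4, i, b, j) => if b = τ i ∧ ch j ≠ i then (1, i, b, j) else (2, i, b, j)
  | (5, i, _, _) => (6, i, false, 0)
  | (_, i, _, _) => (1, ch i, τ (ch i), i)

/-- the predecessor function of the 2-factor -/
def rh (φ : F3) (τ : ℕ → Bool) (ch : ℕ → ℕ) : Vx → Vx
  | (0, i, _, _) => if i = 0 then (0, 3 * φ.length, false, 0) else
      (1, i - 1, !τ (i - 1), φ.length - 1)
  | (1, i, b, j) => if b = τ i then (if ch j = i then (6, j, false, 0) else (4, i, b, j)) else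
      (if j = 0 then (0, i, false, 0) else (1, i, b, j - 1))
  | (2, i, b, j) => if b = τ i ∧ ch j ≠ i then (1, i, b, j) else (4, i, b, j)
  | (3, i, b, j) => (2, i, b, j)
  | (4, i, b, j) => (3, i, b, j)
  | (5, i, _, _) => (1, ch i, τ (ch i), i)
  | (_, i, _, _) => (5, i, false, 0)

/-- the shape of the vertices -/
inductive Sh (φ : F3) : Vx → Prop
  | sp (i : ℕ) (h : i ≤ 3 * φ.length) : Sh φ (0, i, false, 0)
  | br (i : ℕ) (b : Bool) (j : ℕ) (h : i < 3 * φ.length) (h' : j < φ.length) : Sh φ (1, i, b, j)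
  | t2 (i : ℕ) (b : Bool) (j : ℕ) (h : i < 3 * φ.length) (h' : j < φ.length) : Sh φ (2, i, b, j)
  | t3 (i : ℕ) (b : Bool) (j : ℕ) (h : i < 3 * φ.length) (h' : j < φ.length) : Sh φ (3, i, b, j)
  | t4 (i : ℕ) (b : Bool) (j : ℕ) (h : i < 3 * φ.length) (h' : j < φ.length) : Sh φ (4, i, b, j)
  | p5 (j : ℕ) (h : j < φ.length) : Sh φ (5, j, false, 0)
  | p6 (j : ℕ) (h : j < φ.length) : Sh φ (6, j, false, 0)

theorem mem_iff_sh {φ : F3} {v : Vx} : v ∈ vL φ ↔ Sh φ v := by
  obtain ⟨k, i, b, j⟩ := v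
  rw [mem_vL]
  constructor
  · rintro (⟨rfl, h1, rfl, rfl⟩ | ⟨⟨h1, h2⟩, h3, h4⟩ | ⟨h1 | h1, h2, rfl, rfl⟩)
    · exact Sh.sp i h1
    · obtain rfl | rfl | rfl | rfl : k = 1 ∨ k = 2 ∨ k = 3 ∨ k = 4 := by omega
      · exact Sh.br i b j h3 h4
      · exact Sh.t2 i b j h3 h4
      · exact Sh.t3 i b j h3 h4
      · exact Sh.t4 i b j h3 h4
    · subst h1; exact Sh.p5 i h2
    · subst h1; exact Sh.p6 i h2
  · intro h
    cases h with
    | sp i h => exact Or.inl ⟨rfl, h, rfl, rfl⟩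
    | br i b j h h' => exact Or.inr (Or.inl ⟨⟨by omega, by omega⟩, h, h'⟩)
    | t2 i b j h h' => exact Or.inr (Or.inl ⟨⟨by omega, by omega⟩, h, h'⟩)
    | t3 i b j h h' => exact Or.inr (Or.inl ⟨⟨by omega, by omega⟩, h, h'⟩)
    | t4 i b j h h' => exact Or.inr (Or.inl ⟨⟨by omega, by omega⟩, h, h'⟩)
    | p5 j h => exact Or.inr (Or.inr ⟨Or.inl rfl, h, rfl, rfl⟩)
    | p6 j h => exact Or.inr (Or.inr ⟨Or.inr rfl, h, rfl, rfl⟩)

section

variable {φ : F3} {τ : ℕ → Bool} {ch : ℕ → ℕ} (hne : 0 < φ.length)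
  (hch : ∀ j < φ.length, ch j < 3 * φ.length ∧ litIn φ (ch j) (τ (ch j)) j = true)

include hch hne

theorem sg_mem {v : Vx} (hv : Sh φ v) : Sh φ (sg φ τ ch v) := by
  cases hv with
  | sp i h =>
    simp only [sg]
    split_ifs with h1
    · exact Sh.sp 0 (by omega)
    · exact Sh.br i _ 0 (by omega) (by omega)
  | br i b j h h' =>
    simp only [sg]
    split_ifs with h1 h2 h3
    · exact Sh.p5 j h'
    · exact Sh.t2 i b j h h'
    · exact Sh.sp (i + 1) (by omega)
    · exact Sh.br i b (j + 1) h (by omega)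
  | t2 i b j h h' => exact Sh.t3 i b j h h'
  | t3 i b j h h' => exact Sh.t4 i b j h h'
  | t4 i b j h h' =>
    simp only [sg]
    split_ifs with h1
    · exact Sh.br i b j h h'
    · exact Sh.t2 i b j h h'
  | p5 j h => exact Sh.p6 j h
  | p6 j h => exact Sh.br _ _ j (hch j h).1 h

omit hch in
theorem rh_sg {v : Vx} (hv : Sh φ v) : rh φ τ ch (sg φ τ ch v) = v := by
  cases hv with
  | sp i h =>
    simp only [sg]
    split_ifs with h1
    · simp [rh, h1]
    · simp [rh]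
  | br i b j h h' =>
    simp only [sg]
    split_ifs with h1 h2 h3
    · subst h1 h2; simp [rh]
    · subst h1; simp [rh, h2]
    · have hb : b = !τ i := by cases b <;> cases hτ : τ i <;> simp_all
      subst hb
      simp [rh]
      omega
    · simp [rh, h1]
  | t2 i b j h h' => simp [rh, sg]
  | t3 i b j h h' => simp [rh, sg]
  | t4 i b j h h' =>
    simp only [sg]
    split_ifs with h1
    · simp only [rh]
      rw [if_pos h1.1, if_neg h1.2]
    · simp only [rh]
      rw [if_neg h1]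
  | p5 j h => simp [rh, sg]
  | p6 j h => simp [rh, sg]

theorem sg_sg {v : Vx} (hv : Sh φ v) : sg φ τ ch (sg φ τ ch v) ≠ v := by
  cases hv with
  | sp i h =>
    simp only [sg]
    split_ifs with h1
    · have : ¬ (0 = 3 * φ.length) := by omega
      simp [sg, this]
    · simp only [sg]
      have : (!τ i) ≠ τ i := by cases τ i <;> simp
      rw [if_neg this]
      split_ifs <;> simp
  | br i b j h h' =>
    simp only [sg]
    split_ifs with h1 h2 h3
    · simp [sg]
    · simp [sg]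
    · simp only [sg]
      split_ifs <;> simp
    · simp only [sg, if_neg h1]
      split_ifs <;> simp <;> omega
  | t2 i b j h h' => simp [sg]
  | t3 i b j h h' => 
    simp only [sg]
    split_ifs <;> simp
  | t4 i b j h h' =>
    simp only [sg]
    split_ifs with h1
    · simp only [sg]
      rw [if_pos h1.1, if_neg h1.2]
      simp
    · simp [sg]
  | p5 j h => simp [sg]
  | p6 j h => simp [sg]

theorem sg_arc {v : Vx} (hv : Sh φ v) : arcB φ v (sg φ τ ch v) = true ∨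
    arcB φ (sg φ τ ch v) v = true := by
  cases hv with
  | sp i h =>
    simp only [sg]
    split_ifs with h1 <;> left <;> rw [arcB_iff]
    · exact Or.inr (Or.inr (Or.inr (Or.inl ⟨rfl, rfl, h1, rfl⟩)))
    · exact Or.inl ⟨rfl, rfl, rfl, rfl⟩
  | br i b j h h' =>
    simp only [sg]
    split_ifs with h1 h2 h3 <;> left <;> rw [arcB_iff]
    · subst h1 h2
      exact Or.inr (Or.inr (Or.inr (Or.inr (Or.inr (Or.inl ⟨rfl, le_rfl, rfl, (hch j h').2⟩)))))
    · exact Or.inr (Or.inr (Or.inr (Or.inr (Or.inl ⟨le_rfl, by omega, by omega, rfl, rfl, rfl⟩))))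
    · exact Or.inr (Or.inr (Or.inl ⟨rfl, rfl, rfl, h3⟩))
    · exact Or.inr (Or.inl ⟨rfl, rfl, rfl, rfl, rfl⟩)
  | t2 i b j h h' =>
    left
    simp only [sg]
    rw [arcB_iff]
    exact Or.inr (Or.inr (Or.inr (Or.inr (Or.inl ⟨by omega, by omega, by omega, rfl, rfl, rfl⟩))))
  | t3 i b j h h' =>
    left
    simp only [sg]
    rw [arcB_iff]
    exact Or.inr (Or.inr (Or.inr (Or.inr (Or.inl ⟨by omega, by omega, by omega, rfl, rfl, rfl⟩))))
  | t4 i b j h h' =>
    right
    simp only [sg]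
    split_ifs with h1 <;> rw [arcB_iff]
    · exact Or.inr (Or.inr (Or.inr (Or.inr (Or.inl ⟨by omega, by omega, by omega, rfl, rfl, rfl⟩))))
    · exact Or.inr (Or.inr (Or.inr (Or.inr (Or.inl ⟨by omega, by omega, by omega, rfl, rfl, rfl⟩))))
  | p5 j h =>
    left
    simp only [sg]
    rw [arcB_iff]
    exact Or.inr (Or.inr (Or.inr (Or.inr (Or.inr (Or.inr ⟨rfl, rfl, rfl⟩)))))
  | p6 j h =>
    right
    simp only [sg]
    rw [arcB_iff]
    exact Or.inr (Or.inr (Or.inr (Or.inr (Or.inr (Or.inl ⟨rfl, by omega, rfl, (hch j h).2⟩)))))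

/-- the vertices of the directed cycle -/
def Pt (τ : ℕ → Bool) (v : Vx) : Prop := v.1 = 0 ∨ (v.1 = 1 ∧ v.2.2.1 = !τ v.2.1)

theorem sg_path {v : Vx} (hv : Sh φ v) (hp : Pt τ v) : Pt τ (sg φ τ ch v) ∧
    arcB φ v (sg φ τ ch v) = true := by
  cases hv with
  | sp i h =>
    simp only [sg]
    split_ifs with h1 <;> rw [arcB_iff]
    · exact ⟨Or.inl rfl, Or.inr (Or.inr (Or.inr (Or.inl ⟨rfl, rfl, h1, rfl⟩)))⟩
    · exact ⟨Or.inr ⟨rfl, rfl⟩, Or.inl ⟨rfl, rfl, rfl, rfl⟩⟩
  | br i b j h h' =>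
    have hb : b = !τ i := by
      rcases hp with hp | hp
      · simp at hp
      · exact hp.2
    have hb' : b ≠ τ i := by rw [hb]; cases τ i <;> simp
    simp only [sg]
    rw [if_neg hb']
    split_ifs with h3 <;> rw [arcB_iff]
    · exact ⟨Or.inl rfl, Or.inr (Or.inr (Or.inl ⟨rfl, rfl, rfl, h3⟩))⟩
    · exact ⟨Or.inr ⟨rfl, hb⟩, Or.inr (Or.inl ⟨rfl, rfl, rfl, rfl, rfl⟩)⟩
  | t2 i b j h h' => rcases hp with hp | hp <;> simp at hp
  | t3 i b j h h' => rcases hp with hp | hp <;> simp at hp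
  | t4 i b j h h' => rcases hp with hp | hp <;> simp at hp
  | p5 j h => rcases hp with hp | hp <;> simp at hp
  | p6 j h => rcases hp with hp | hp <;> simp at hp

theorem hasTwoFactor : HasTwoFactor (Ar φ) := by
  let s : {v : Vx // v ∈ vL φ} → {v : Vx // v ∈ vL φ} := fun v =>
    ⟨sg φ τ ch v.1, mem_iff_sh.2 (sg_mem hne hch (mem_iff_sh.1 v.2))⟩
  have hfin : Finite {v : Vx // v ∈ vL φ} := (List.finite_toSet (vL φ))
  have h0 : ((0, 0, false, 0) : Vx) ∈ vL φ := mem_iff_sh.2 (Sh.sp 0 (by omega))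
  have hpt : ∀ k : ℕ, Pt τ (s^[k] ⟨(0, 0, false, 0), h0⟩).1 := by
    intro k
    induction k with
    | zero => exact Or.inl rfl
    | succ k ih =>
      rw [Function.iterate_succ_apply']
      exact (sg_path hne hch (mem_iff_sh.1 (s^[k] ⟨(0, 0, false, 0), h0⟩).2) ih).1
  refine HasTwoFactor.of_inj s ?_ ?_ ?_ ⟨(0, 0, false, 0), h0⟩ ?_
  · intro v w hvw
    have h1 := congrArg (fun x => rh φ τ ch x.1) hvw
    simp only [s] at h1
    rw [rh_sg hne (mem_iff_sh.1 v.2), rh_sg hne (mem_iff_sh.1 w.2)] at h1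
    exact Subtype.ext h1
  · intro v
    exact sg_arc hne hch (mem_iff_sh.1 v.2)
  · intro v h
    exact sg_sg hne hch (mem_iff_sh.1 v.2) (congrArg Subtype.val h)
  · intro k
    rw [Function.iterate_succ_apply']
    exact (sg_path hne hch (mem_iff_sh.1 (s^[k] ⟨(0, 0, false, 0), h0⟩).2) (hpt k)).2

end

end Pool.Agent.Q227.TF
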