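import Mathlib

/-!
# 2-factors with a directed cycle: basic facts
-/

set_option autoImplicit false

namespace Pool.Agent.Q227.TF

/-- `A` is the arc relation of a digraph with vertex set `V`. The underlying graph has a 2-factor
`F` (a spanning subgraph in which all vertices have degree two) one of whose cycles is a directed
cycle of the digraph. -/
def HasTwoFactor {V : Type} (A : V → V → Prop) : Prop :=
  ∃ F : SimpleGraph V, (∀ u v, F.Adj u v → A u v ∨ A v u) ∧
    (∀ v, (F.neighborSet v).ncard = 2) ∧
    ∃ (u : V) (C : F.Walk u u), C.IsCycle ∧ ∀ d ∈ C.darts, A d.fst d.snd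

theorem HasTwoFactor.transport {V W : Type} {A : V → V → Prop} {B : W → W → Prop} (e : V ≃ W)
    (h : ∀ u v, A u v ↔ B (e u) (e v)) (hA : HasTwoFactor A) : HasTwoFactor B := by
  obtain ⟨F, h1, h2, u, C, hC, hd⟩ := hA
  let f : F →g F.comap e.symm := ⟨e, by
    intro a b hab
    simpa using hab⟩
  refine ⟨F.comap e.symm, ?_, ?_, e u, C.map f, ?_, ?_⟩
  · intro a b hab
    have h3 := h1 _ _ hab
    rw [h, h] at h3
    simpa using h3
  · intro w
    have h3 : (F.comap e.symm).neighborSet w = e '' F.neighborSet (e.symm w) := by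
      ext x
      constructor
      · intro hx
        exact ⟨e.symm x, hx, by simp⟩
      · rintro ⟨y, hy, rfl⟩
        change F.Adj (e.symm w) (e.symm (e y))
        rw [e.symm_apply_apply]
        exact hy
    rw [h3, Set.ncard_image_of_injective _ e.injective]
    exact h2 _
  · exact hC.map e.injective
  · intro d hd'
    rw [SimpleGraph.Walk.darts_map, List.mem_map] at hd'
    obtain ⟨d', hd'', rfl⟩ := hd'
    have := (h _ _).1 (hd d' hd'')
    exact this

section Perm

variable {V : Type} (σ : V → V)

/-- The graph of the cycles of a function without points of period one or two. -/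
def cyc (h2 : ∀ v, σ (σ v) ≠ v) : SimpleGraph V where
  Adj u v := σ u = v ∨ σ v = u
  symm := ⟨fun _ _ h => h.symm⟩
  loopless := ⟨fun v h => h2 v (by rcases h with h | h <;> rw [h, h])⟩

/-- The walk along the orbit of a vertex. -/
def orb (h2 : ∀ v, σ (σ v) ≠ v) : (n : ℕ) → (v : V) → (cyc σ h2).Walk v (σ^[n] v)
  | 0, _ => SimpleGraph.Walk.nil
  | n + 1, v => (SimpleGraph.Walk.cons (show (cyc σ h2).Adj v (σ v) from Or.inl rfl)
      (orb h2 n (σ v))).copy rfl (Function.iterate_succ_apply σ n v).symm

theorem orb_support (h2 : ∀ v, σ (σ v) ≠ v) : ∀ (n : ℕ) (v : V),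
    (orb σ h2 n v).support = (List.range (n + 1)).map (fun i => σ^[i] v)
  | 0, v => by simp [orb]
  | n + 1, v => by
    rw [orb, SimpleGraph.Walk.support_copy, SimpleGraph.Walk.support_cons, orb_support h2 n (σ v),
      List.range_succ_eq_map]
    simp [List.map_map, Function.comp_def]

theorem orb_darts (h2 : ∀ v, σ (σ v) ≠ v) : ∀ (n : ℕ) (v : V), ∀ d ∈ (orb σ h2 n v).darts,
    ∃ i < n, d.fst = σ^[i] v ∧ d.snd = σ^[i + 1] v
  | 0, v => by simp [orb]
  | n + 1, v => by
    intro d hd
    rw [orb, SimpleGraph.Walk.darts_copy, SimpleGraph.Walk.darts_cons, List.mem_cons] at hd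
    rcases hd with rfl | hd
    · exact ⟨0, by omega, rfl, rfl⟩
    · obtain ⟨i, hi, h3, h4⟩ := orb_darts h2 n (σ v) d hd
      exact ⟨i + 1, by omega, h3, h4⟩

theorem orb_edges (h2 : ∀ v, σ (σ v) ≠ v) (n : ℕ) (v : V) (e : Sym2 V)
    (he : e ∈ (orb σ h2 n v).edges) : ∃ i < n, e = s(σ^[i] v, σ^[i + 1] v) := by
  rw [SimpleGraph.Walk.edges, List.mem_map] at he
  obtain ⟨d, hd, rfl⟩ := he
  obtain ⟨i, hi, h3, h4⟩ := orb_darts σ h2 n v d hd
  refine ⟨i, hi, ?_⟩
  rw [← h3, ← h4]
  rfl

theorem HasTwoFactor.of_inj [Finite V] {A : V → V → Prop} (hinj : Function.Injective σ)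
    (h1 : ∀ v, A v (σ v) ∨ A (σ v) v) (h2 : ∀ v, σ (σ v) ≠ v) (v₀ : V)
    (hd : ∀ k : ℕ, A (σ^[k] v₀) (σ^[k + 1] v₀)) : HasTwoFactor A := by
  have hbij : Function.Bijective σ := Finite.injective_iff_bijective.1 hinj
  have hper : v₀ ∈ Function.periodicPts σ := by
    have := hinj.mem_periodicPts v₀
    exact this
  set N := Function.minimalPeriod σ v₀ with hN
  have hNpos : 0 < N := Function.minimalPeriod_pos_of_mem_periodicPts hper
  have hNper : σ^[N] v₀ = v₀ := Function.iterate_minimalPeriod
  have hmin : ∀ i j : ℕ, i < N → j < N → σ^[i] v₀ = σ^[j] v₀ → i = j := by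
    intro i j hi hj hij
    exact Function.iterate_injOn_Iio_minimalPeriod (f := σ) (x := v₀) hi hj hij
  obtain ⟨M, hM⟩ : ∃ M, N = M + 1 := ⟨N - 1, by omega⟩
  have hend : σ^[M] (σ v₀) = v₀ := by
    rw [← Function.iterate_succ_apply, Nat.succ_eq_add_one, ← hM]; exact hNper
  refine ⟨cyc σ h2, ?_, ?_, v₀, SimpleGraph.Walk.cons
    (show (cyc σ h2).Adj v₀ (σ v₀) from Or.inl rfl) ((orb σ h2 M (σ v₀)).copy rfl hend), ?_, ?_⟩
  · rintro u v (rfl | rfl)
    · exact h1 u
    · exact (h1 v).symm
  · intro v
    obtain ⟨w, hw⟩ := hbij.2 v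
    have h3 : (cyc σ h2).neighborSet v = {σ v, w} := by
      ext x
      change (σ v = x ∨ σ x = v) ↔ _
      rw [Set.mem_insert_iff, Set.mem_singleton_iff]
      constructor
      · rintro (h | h)
        · exact Or.inl h.symm
        · exact Or.inr (hinj (h.trans hw.symm))
      · rintro (h | h)
        · exact Or.inl h.symm
        · exact Or.inr (h ▸ hw)
    rw [h3, Set.ncard_pair]
    intro h
    apply h2 v
    rw [h, hw]
  · rw [SimpleGraph.Walk.cons_isCycle_iff]
    constructor
    · rw [SimpleGraph.Walk.isPath_def, SimpleGraph.Walk.support_copy, orb_support,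
        List.nodup_map_iff_inj_on (List.nodup_range)]
      intro i hi j hj hij
      rw [List.mem_range] at hi hj
      simp only [← Function.iterate_succ_apply] at hij
      by_cases hiM : i + 1 < N
      · by_cases hjM : j + 1 < N
        · have := hmin (i + 1) (j + 1) hiM hjM hij
          omega
        · have hj' : j + 1 = N := by omega
          simp only [Nat.succ_eq_add_one, hj', hNper] at hij
          have := hmin (i + 1) 0 hiM hNpos hij
          omega
      · have hi' : i + 1 = N := by omega
        by_cases hjM : j + 1 < N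
        · simp only [Nat.succ_eq_add_one, hi', hNper] at hij
          have := hmin 0 (j + 1) hNpos hjM hij
          omega
        · omega
    · intro he
      rw [SimpleGraph.Walk.edges_copy] at he
      obtain ⟨i, hi, he⟩ := orb_edges σ h2 M (σ v₀) _ he
      simp only [← Function.iterate_succ_apply] at he
      rw [Sym2.eq_iff] at he
      rcases he with ⟨h3, h4⟩ | ⟨h3, h4⟩
      · have := hmin 0 (i + 1) hNpos (by omega) h3
        omega
      · by_cases hiM : i + 2 < N
        · have := hmin 0 (i + 2) hNpos hiM h3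
          omega
        · have hi' : i + 2 = N := by omega
          have h5 : σ (σ v₀) = σ^[i + 2] v₀ := by
            rw [h4]
            simp only [Nat.succ_eq_add_one]
            rw [← Function.iterate_succ_apply' σ (i + 1)]
          rw [hi', hNper] at h5
          exact h2 v₀ h5
  · intro d hd'
    rw [SimpleGraph.Walk.darts_cons, List.mem_cons] at hd'
    rcases hd' with rfl | hd'
    · exact hd 0
    · rw [SimpleGraph.Walk.darts_copy] at hd'
      obtain ⟨i, hi, h3, h4⟩ := orb_darts σ h2 M (σ v₀) d hd'
      rw [h3, h4]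
      exact hd (i + 1)

end Perm

/-- Facts about a cycle of a 2-factor all of whose darts are arcs. -/
theorem cycle_facts {V : Type} {A : V → V → Prop} {F : SimpleGraph V}
    (hdeg : ∀ v, (F.neighborSet v).ncard = 2) {u : V} {C : F.Walk u u} (hC : C.IsCycle)
    (hd : ∀ d ∈ C.darts, A d.fst d.snd) :
    u ∈ C.support ∧ (∀ v ∈ C.support, ∃ w ∈ C.support, A v w) ∧
      ∀ v ∈ C.support, ∀ w, F.Adj v w → w ∈ C.support := by
  refine ⟨C.start_mem_support, ?_, ?_⟩
  · intro v hv
    have hv' : v ∈ C.support.dropLast := by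
      have h1 : C.support = C.support.dropLast ++ [u] := by
        conv_lhs => rw [← List.dropLast_append_getLast C.support_ne_nil]
        rw [C.getLast_support]
      by_cases hvu : v = u
      · subst hvu
        cases C with
        | nil => exact absurd hC (by simp)
        | cons h p => 
          rw [SimpleGraph.Walk.support_cons, List.dropLast_cons_of_ne_nil p.support_ne_nil]
          exact List.mem_cons_self
      · rw [h1, List.mem_append, List.mem_singleton] at hv
        rcases hv with hv | hv
        · exact hv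
        · exact absurd hv hvu
    rw [← SimpleGraph.Walk.map_fst_darts, List.mem_map] at hv'
    obtain ⟨d, hd1, rfl⟩ := hv'
    exact ⟨d.snd, C.dart_snd_mem_support_of_mem_darts hd1, hd d hd1⟩
  · intro v hv w hvw
    have h1 : (C.toSubgraph.neighborSet v).ncard = 2 := hC.ncard_neighborSet_toSubgraph_eq_two hv
    have h2 : C.toSubgraph.neighborSet v ⊆ F.neighborSet v := C.toSubgraph.neighborSet_subset v
    have h3 : C.toSubgraph.neighborSet v = F.neighborSet v := by
      exact Set.eq_of_subset_of_ncard_le h2 (by rw [h1, hdeg v])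
        (Set.finite_of_ncard_ne_zero (by rw [hdeg v]; omega))
    have h4 : w ∈ C.toSubgraph.neighborSet v := by rw [h3]; exact hvw
    have h5 := C.toSubgraph.edge_vert (C.toSubgraph.symm.symm _ _ h4)
    simpa using h5

end Pool.Agent.Q227.TF
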